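import Pool.Agent.H74.CB.Defs

set_option autoImplicit false

/-!
# [H81 CC Lm] measurability of the set of good lines
-/

namespace Pool.Agent.H81.CC

open MeasureTheory Metric Pool.Agent.H74.CB

variable {n : ℕ}

/-- the lines which meet a closed set in a bounded parameter -/
private theorem isClosed_hit (C : Set (V n)) (hC : IsClosed C) (k : ℕ) :
    IsClosed {p : V n × V n | ∃ s : ℂ, ‖s‖ ≤ k ∧ p.1 + s • p.2 ∈ C} := by
  have : CompactSpace (closedBall (0 : ℂ) (k : ℝ)) := isCompact_iff_compactSpace.mp (isCompact_closedBall 0 _)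
  have hcl : IsClosed {q : (V n × V n) × closedBall (0 : ℂ) (k : ℝ) | q.1.1 + (q.2 : ℂ) • q.1.2 ∈ C} :=
    hC.preimage (by fun_prop)
  have h := isClosedMap_fst_of_compactSpace _ hcl
  have e : {p : V n × V n | ∃ s : ℂ, ‖s‖ ≤ k ∧ p.1 + s • p.2 ∈ C} =
      Prod.fst '' {q : (V n × V n) × closedBall (0 : ℂ) (k : ℝ) | q.1.1 + (q.2 : ℂ) • q.1.2 ∈ C} := by
    ext p
    constructor
    · rintro ⟨s, hs, hp⟩
      exact ⟨(p, ⟨s, by simpa using hs⟩), hp, rfl⟩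
    · rintro ⟨⟨p, s⟩, hq, rfl⟩
      exact ⟨(s : ℂ), mem_closedBall_zero_iff.1 s.2, hq⟩
  rw [e]
  exact h

theorem line_meas (f g : V n → ℂ) (hf : ContinuousOn f (closedBall (0 : V n) 1))
    (hg : ContinuousOn g (closedBall (0 : V n) 1)) :
    MeasurableSet {p : V n × V n | p.1 ∈ ball (0 : V n) 1 ∧ p.2 ≠ 0 ∧
      ∀ s : ℂ, ‖p.1 + s • p.2‖ = 1 →
        ‖f (p.1 + s • p.2)‖ = ‖g (p.1 + s • p.2)‖ ∧ f (p.1 + s • p.2) ≠ 0} := by
  have hs : sphere (0 : V n) 1 ⊆ closedBall (0 : V n) 1 := sphere_subset_closedBall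
  have hd : ContinuousOn (fun x => |‖f x‖ - ‖g x‖|) (sphere (0 : V n) 1) :=
    ((hf.mono hs).norm.sub (hg.mono hs).norm).abs
  have c1 : ∀ m : ℕ, IsClosed (sphere (0 : V n) 1 ∩ (fun x => |‖f x‖ - ‖g x‖|) ⁻¹' Set.Ici (1 / ((m : ℝ) + 1))) :=
    fun m => hd.preimage_isClosed_of_isClosed isClosed_sphere isClosed_Ici
  have c2 : IsClosed (sphere (0 : V n) 1 ∩ f ⁻¹' {0}) :=
    (hf.mono hs).preimage_isClosed_of_isClosed isClosed_sphere isClosed_singleton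
  have key : {p : V n × V n | p.1 ∈ ball (0 : V n) 1 ∧ p.2 ≠ 0 ∧
      ∀ s : ℂ, ‖p.1 + s • p.2‖ = 1 →
        ‖f (p.1 + s • p.2)‖ = ‖g (p.1 + s • p.2)‖ ∧ f (p.1 + s • p.2) ≠ 0} =
      ({p : V n × V n | p.1 ∈ ball (0 : V n) 1} ∩ {p : V n × V n | p.2 ≠ 0}) \
        ((⋃ k : ℕ, ⋃ m : ℕ, {p : V n × V n | ∃ s : ℂ, ‖s‖ ≤ k ∧ p.1 + s • p.2 ∈
          sphere (0 : V n) 1 ∩ (fun x => |‖f x‖ - ‖g x‖|) ⁻¹' Set.Ici (1 / ((m : ℝ) + 1))}) ∪
        (⋃ k : ℕ, {p : V n × V n | ∃ s : ℂ, ‖s‖ ≤ k ∧ p.1 + s • p.2 ∈ sphere (0 : V n) 1 ∩ f ⁻¹' {0}})) := by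
    ext p
    constructor
    · rintro ⟨h1, h2, h3⟩
      refine ⟨⟨h1, h2⟩, ?_⟩
      rintro (h | h)
      · obtain ⟨k, hk⟩ := Set.mem_iUnion.1 h
        obtain ⟨m, s, -, h4, h5⟩ := Set.mem_iUnion.1 hk
        have h6 := (h3 s (by simpa using h4)).1
        have h7 : 1 / ((m : ℝ) + 1) ≤ |‖f (p.1 + s • p.2)‖ - ‖g (p.1 + s • p.2)‖| := h5
        rw [h6, sub_self, abs_zero] at h7
        have : (0 : ℝ) < 1 / ((m : ℝ) + 1) := by positivity
        linarith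
      · obtain ⟨k, s, -, h4, h5⟩ := Set.mem_iUnion.1 h
        exact (h3 s (by simpa using h4)).2 h5
    · rintro ⟨⟨h1, h2⟩, h3⟩
      refine ⟨h1, h2, ?_⟩
      intro s hn
      obtain ⟨k, hk⟩ := exists_nat_ge ‖s‖
      have hm : p.1 + s • p.2 ∈ sphere (0 : V n) 1 := by simpa using hn
      constructor
      · by_contra hne
        apply h3
        left
        have hpos : 0 < |‖f (p.1 + s • p.2)‖ - ‖g (p.1 + s • p.2)‖| := abs_pos.2 (sub_ne_zero.2 hne)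
        obtain ⟨m, hm'⟩ := exists_nat_one_div_lt hpos
        exact Set.mem_iUnion.2 ⟨k, Set.mem_iUnion.2 ⟨m, s, hk, hm, hm'.le⟩⟩
      · intro h0
        apply h3
        right
        exact Set.mem_iUnion.2 ⟨k, s, hk, hm, h0⟩
  rw [key]
  refine MeasurableSet.diff (MeasurableSet.inter ?_ ?_) (MeasurableSet.union ?_ ?_)
  · exact (isOpen_ball.preimage continuous_fst).measurableSet
  · exact (isClosed_singleton.preimage (continuous_snd (X := V n) (Y := V n))).measurableSet.compl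
  · exact MeasurableSet.iUnion fun k => MeasurableSet.iUnion fun m => (isClosed_hit _ (c1 m) k).measurableSet
  · exact MeasurableSet.iUnion fun k => (isClosed_hit _ c2 k).measurableSet

end Pool.Agent.H81.CC
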