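import Pool.Agent.H74.CC.Api

set_option autoImplicit false

/-!
MP_845814_an, module Cone: the measure of the set of the `rho P t ζ`.
-/

namespace Pool.Agent.H81.CC

open scoped Pointwise
open MeasureTheory Metric Set Pool.Agent.H74.CB Pool.Agent.H74.CC

variable {n : ℕ} {P : V n →L[ℂ] V n}

/-- the map which takes `rho P s ζ` to `s ζ` -/
noncomputable def J (P : V n →L[ℂ] V n) (w : V n) : V n :=
  P w + (‖P w‖ / √(1 - ‖w - P w‖ ^ 2)) • (w - P w)

theorem J_diff (w : V n) (h0 : P w ≠ 0) (h1 : ‖w - P w‖ < 1) : DifferentiableAt ℝ (J P) w := by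
  have hP : DifferentiableAt ℝ (fun w => P w) w := (P.restrictScalars ℝ).differentiableAt
  have hQ : DifferentiableAt ℝ (fun w => w - P w) w := differentiableAt_id.sub hP
  have hn : DifferentiableAt ℝ (fun w => ‖P w‖) w := hP.norm ℂ h0
  have hq : DifferentiableAt ℝ (fun w => 1 - ‖w - P w‖ ^ 2) w := (hQ.norm_sq ℂ).const_sub 1
  have hpos : 0 < 1 - ‖w - P w‖ ^ 2 := by
    have := norm_nonneg (w - P w)
    nlinarith
  have hs : DifferentiableAt ℝ (fun w => √(1 - ‖w - P w‖ ^ 2)) w := hq.sqrt hpos.ne'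
  have hne : √(1 - ‖w - P w‖ ^ 2) ≠ 0 := (Real.sqrt_pos.2 hpos).ne'
  have hd : DifferentiableAt ℝ (fun w => ‖P w‖ / √(1 - ‖w - P w‖ ^ 2)) w := by
    have h2 := hn.mul (hs.inv hne)
    have h3 : (fun w => ‖P w‖ / √(1 - ‖w - P w‖ ^ 2)) =
        (fun w => ‖P w‖) * (fun w => √(1 - ‖w - P w‖ ^ 2))⁻¹ := by
      funext y
      simp [div_eq_mul_inv]
    rw [h3]
    exact h2
  exact hP.add (hd.smul hQ)

theorem J_rho (hP : IsPr P) (ζ : V n) (hζ : ‖ζ‖ = 1) (h0 : P ζ ≠ 0) (s : ℝ) (hs0 : 0 < s) :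
    P (rho P s ζ) ≠ 0 ∧ ‖rho P s ζ - P (rho P s ζ)‖ < 1 ∧ J P (rho P s ζ) = s • ζ := by
  have e1 : P (rho P s ζ) = (s : ℂ) • P ζ := P_rho hP _ _
  have e2 : rho P s ζ - P (rho P s ζ) = ζ - P ζ := sub_rho hP _ _
  have e3 : ‖P ζ‖ ^ 2 = 1 - ‖ζ - P ζ‖ ^ 2 := by
    have := norm_sq hP ζ
    rw [hζ] at this
    linarith
  have hPn : 0 < ‖P ζ‖ := norm_pos_iff.2 h0
  refine ⟨?_, ?_, ?_⟩
  · rw [e1]
    exact smul_ne_zero (by exact_mod_cast hs0.ne') h0
  · rw [e2]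
    have h2 : 0 < ‖P ζ‖ ^ 2 := by positivity
    have h3 : ‖ζ - P ζ‖ ^ 2 < 1 := by linarith
    exact (sq_lt_one_iff₀ (norm_nonneg _)).1 h3
  · unfold J
    rw [e2, e1, ← e3, Real.sqrt_sq hPn.le, norm_smul, Complex.norm_real, Real.norm_eq_abs, abs_of_pos hs0,
      mul_div_assoc, div_self hPn.ne', mul_one]
    have e4 : (s : ℂ) • P ζ = s • P ζ := rfl
    rw [e4, ← smul_add, add_sub_cancel]

theorem cone_union (hP : IsPr P) (A : Set (sphere (0 : V n) 1)) (hA : MeasurableSet A)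
    (hpos : (volume : Measure (V n)).toSphere A ≠ 0) (S : ℕ → Set (V n))
    (hS : ∀ ζ ∈ A, P (ζ : V n) ≠ 0 → ∀ t : ℝ, 0 < t → t < 1 → ∃ M, rho P t (ζ : V n) ∈ S M) :
    ∃ M, (volume : Measure (V n)) (S M) ≠ 0 := by
  by_contra hcon
  push Not at hcon
  have hN : (volume : Measure (V n)) (⋃ M, S M) = 0 := measure_iUnion_null hcon
  apply hpos
  rw [Measure.toSphere_apply' _ hA]
  have hsub : Ioo (0 : ℝ) 1 • ((↑) '' A : Set (V n)) ⊆
      J P '' ((⋃ M, S M) ∩ {w | P w ≠ 0 ∧ ‖w - P w‖ < 1}) ∪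
        ((P.restrictScalars ℝ : V n →L[ℝ] V n).ker : Set (V n)) := by
    rintro x hx
    obtain ⟨s, hs, y, ⟨ζ, hζ, rfl⟩, rfl⟩ := Set.mem_smul.1 hx
    have hζn : ‖(ζ : V n)‖ = 1 := by simp
    by_cases h0 : P (ζ : V n) = 0
    · right
      show P (s • (ζ : V n)) = 0
      have e4 : s • (ζ : V n) = (s : ℂ) • (ζ : V n) := rfl
      rw [e4, map_smul, h0, smul_zero]
    · left
      obtain ⟨M, hM⟩ := hS ζ hζ h0 s hs.1 hs.2
      obtain ⟨h1, h2, h3⟩ := J_rho hP (ζ : V n) hζn h0 s hs.1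
      exact ⟨rho P s (ζ : V n), ⟨Set.mem_iUnion.2 ⟨M, hM⟩, h1, h2⟩, h3⟩
  have h1 : (volume : Measure (V n)) (J P '' ((⋃ M, S M) ∩ {w | P w ≠ 0 ∧ ‖w - P w‖ < 1})) = 0 := by
    apply MeasureTheory.addHaar_image_eq_zero_of_differentiableOn_of_addHaar_eq_zero
    · intro w hw
      exact (J_diff w hw.2.1 hw.2.2).differentiableWithinAt
    · exact measure_mono_null inter_subset_left hN
  have h2 : (volume : Measure (V n)) ((P.restrictScalars ℝ : V n →L[ℝ] V n).ker : Set (V n)) = 0 := by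
    apply Measure.addHaar_submodule
    intro htop
    obtain ⟨w, hw⟩ := hP.ne
    apply hw
    have : w ∈ (P.restrictScalars ℝ : V n →L[ℝ] V n).ker := by
      rw [htop]
      exact Submodule.mem_top
    exact this
  have h3 := measure_mono_null hsub (measure_union_null h1 h2)
  rw [h3, mul_zero]

end Pool.Agent.H81.CC
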